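import Pool.Agent.V7H91.BJ.J11
import Pool.Agent.V7H91.BI.R6
import Pool.Agent.Y699.Pos
import Pool.Agent.Y698.SG.Uj

/-!
# The 2-part of the formula of Birch and Swinnerton-Dyer for `y² = x³ - D² x` over `ℚ(i)` and over
# a positive proportion of the quadratic extensions of `ℚ(i)`

`K = ℚ(i)` and `E_D : y² = x³ - D² x`, where `D` is in the following class (a positive proportion of the
squarefree Gaussian integers): `D` is primary and squarefree, its norm is `5` modulo `8`, and for every
factorization `D = d d'` into primary factors not equal to `1` there is a prime factor of `d` modulo which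
`d'` is not a square, or a prime factor of `d'` modulo which `d` is not a square.

Let `D` and `D'` be two different elements of the class, and let `F = K(√(D D'))`.  The curves `E_D` and `E_{D'}` are isomorphic over `F`, and
`L(E_D/F, s) = L(E_D/K, s) L(E_{D'}/K, s)`.  Let `t` be the number of the primes which divide exactly one
of the numbers `D` and `D'` (they are the primes of `K` which are ramified in `F`), `s` the number of
those which divide both, and `k` the number of those which divide both and stay prime in `F`.  Let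
`z = √|Disc F| #E_D(F)_tors² L(E_D/F, 1) / (Ω ∏ c_v)`; according to the conjecture this is the order of
`Ш(E_D/F)`.  The equation of `E_D` is not minimal at the places of `F` which divide `D` but not `D'`; the
period `Ω` and the `c_v` are defined by minimal equations at all finite places.  The theorem says, with no
hypothesis on `Ш`:

* over `K`: the 2-primary part of `Ш(E_D/K)` is zero, and `z` is a unit at all the primes above two;
* over `F`: `L(E_D/F, s)` is entire and `L(E_D/F, 1) ≠ 0`, `E_D(F)` has exactly four elements,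
  `∏ c_v = 2 ^ (4 s - 2 k + 2)`, the 2-primary part of `Ш(E_D/F)` is finite, killed by `2` and of the order
  `4 ^ (t + k - 2)`, and `z` divided by this order is a unit at all the primes above two: the two sides
  of the formula agree at all the primes above two;
* the class has at least `c X` elements of norm at most `X`, `c > 0`, and for every `D` in the class
  different `D'` give different fields `F`: the assertion on `E_D` holds over a positive proportion of the
  quadratic extensions of `K`;
* for every `D` in the class and every `N` there are infinitely many `D'` with `t + k - 2 = N`, so that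
  the 2-primary part of `Ш(E_D/F)` is `(ℤ/2)^(2N)`.

The proof.  Analytic side: the library expresses `L(E_D / K, 1)` by values of `℘` at division points,
which gives it modulo the primes above two.  The integrals over `E_D(ℂ)` are computed by a change of
variables (`℘` and areas); the discriminant of `F` is `16` times an odd number, as `F / K` is not ramified
above `1 + i` (the different); the Tamagawa numbers are `4` above the primes which divide `D` and `D'`, `2` at
both places above `1 + i` if it splits in `F` and `4` if it is inert, and `1` at the ramified places, where `E_D` or its twist `E_{D'}` has good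
reduction.  Algebraic side: a complete `2`-descent over `F` for continuous cocycles.  A class in the
Selmer group has a norm which is a Selmer class over `K`; by the criteria for `D` and for `D'` this norm is
trivial, so the class comes from `K`, and the criteria bound the number of these classes.  Conversely a
pair of divisors of `D D'` which satisfies the conditions at the primes that split in `F`, corrected by the
points of order two, is locally the image of a point at all places of `F`: this is checked at the primes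
which divide `D` and `D'` (inert or split), at the ramified primes (with the equation of `E_D` or of
`E_{D'}`) and at `1 + i` (split or inert).
-/

set_option autoImplicit false

open NumberField IsDedekindDomain WeierstrassCurve MeasureTheory Filter Topology

namespace Pool.Agent.Results.MP_1a91b9_nt.FormulaQuadraticFieldsH91

open Pool.Agent.TH841.NF.D (Sha)
open Pool.Agent.TH841.SH.D (Pt)
open NumberField.HeightOneSpectrum (adicAbv)

/-! ### The terms of the formula -/

section terms

variable {M : Type} [Field M] [NumberField M]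

/-- The coefficients of the equation are integral at the finite place `v` of `M`. -/
def IntegralAt (W : WeierstrassCurve M) (v : HeightOneSpectrum (𝓞 M)) : Prop :=
  v.valuation M W.a₁ ≤ 1 ∧ v.valuation M W.a₂ ≤ 1 ∧ v.valuation M W.a₃ ≤ 1 ∧
    v.valuation M W.a₄ ≤ 1 ∧ v.valuation M W.a₆ ≤ 1

/-- The equation is minimal at the finite place `v` of `M`: it is integral at `v`, and no change of
variables over `M` that gives an equation integral at `v` decreases the order of the discriminant. -/
def MinimalAt (W : WeierstrassCurve M) (v : HeightOneSpectrum (𝓞 M)) : Prop :=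
  IntegralAt W v ∧ ∀ C : VariableChange M, IntegralAt (C • W) v →
    v.valuation M (C • W).Δ ≤ v.valuation M W.Δ

/-- Minimal equations of a curve over `M` at all finite places: for every finite place `v` an equation
`eqn v` over the ring of integers of `M` which is minimal at `v`, and a change of variables `chg v` over
`M` which takes `W` to it. -/
structure MinimalEquations (W : WeierstrassCurve M) where
  eqn : HeightOneSpectrum (𝓞 M) → WeierstrassCurve (𝓞 M)
  chg : HeightOneSpectrum (𝓞 M) → VariableChange M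
  chg_eq : ∀ v, chg v • W = (eqn v).map (algebraMap (𝓞 M) M)
  minimal : ∀ v, MinimalAt (chg v • W) v

/-- `W⁰(M_v)`, the group of the points of `W` over the completion `M_v` with nonsingular reduction:
the point at infinity and the points `(x, y)` where `x` is not integral, or one of the partial
derivatives of `y² + a₁ x y + a₃ y - x³ - a₂ x² - a₄ x - a₆` is a unit at `(x, y)`.
Here `Pt W M_v` is the group of the points of `W` over `M_v`. -/
noncomputable def nonsing (W : WeierstrassCurve M) (v : HeightOneSpectrum (𝓞 M)) :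
    AddSubgroup (Pt W (v.adicCompletion M)) :=
  AddSubgroup.closure {P | ∀ x y h, P = Affine.Point.some x y h →
    1 < Valued.v x ∨
    Valued.v ((W.baseChange (v.adicCompletion M)).a₁ * y -
      (3 * x ^ 2 + 2 * (W.baseChange (v.adicCompletion M)).a₂ * x +
        (W.baseChange (v.adicCompletion M)).a₄)) = 1 ∨
    Valued.v (2 * y + (W.baseChange (v.adicCompletion M)).a₁ * x +
      (W.baseChange (v.adicCompletion M)).a₃) = 1}

/-- The Tamagawa number `c_v = [W(M_v) : W⁰(M_v)]` of an equation which is minimal at `v`. -/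
noncomputable def c (W : WeierstrassCurve M) (v : HeightOneSpectrum (𝓞 M)) : ℕ :=
  (nonsing W v).index

/-- The product of the Tamagawa numbers. -/
noncomputable def Tam {W : WeierstrassCurve M} (m : MinimalEquations W) : ℕ :=
  ∏ᶠ v : HeightOneSpectrum (𝓞 M), c (m.chg v • W) v

/-- The 2-primary part of the Tate-Shafarevich group over `M`. -/
def Sha2 (W : WeierstrassCurve M) : Set (Sha W) := {x | ∃ n : ℕ, 2 ^ n • x = 0}

/-- `4 x³ + b₂ x² + 2 b₄ x + b₆ = (2 y + a₁ x + a₃)²`. -/
def cubic {R : Type} [CommRing R] (W : WeierstrassCurve R) (x : R) : R :=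
  4 * x ^ 3 + W.b₂ * x ^ 2 + 2 * W.b₄ * x + W.b₆

/-- `∫_{W(ℝ)} |ω|` with `ω = dx / (2 y + a₁ x + a₃)`, as an integral over `x`: two real points lie
over each `x` with `cubic x > 0`. -/
noncomputable def realPeriod (W : WeierstrassCurve ℝ) : ℝ :=
  2 * ∫ x in {x : ℝ | 0 < cubic W x}, 1 / √(cubic W x)

/-- `2 ∫_{W(ℂ)} |ω ∧ ω̄|`, where `|ω ∧ ω̄| = du dv` in a local parameter `z = u + i v` with
`dz = ω`, as an integral over `x`: two points lie over a general `x`, and `|ω ∧ ω̄|` is the area
element of the plane of `x` divided by `|cubic x|`. -/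
noncomputable def complexPeriod (W : WeierstrassCurve ℂ) : ℝ := 2 * (2 * ∫ x : ℂ, 1 / ‖cubic W x‖)

open Classical in
/-- `Ω_{W/M}`: the product over the infinite places of the periods of the curves over `ℝ` and `ℂ` with
the differential `ω = dx / (2 y + a₁ x + a₃)` of the equation `W`, multiplied by the product over the
finite places of `|ω / ω_v|_v`, where `ω_v` is the differential of the minimal equation at `v`.  The
change of variables `x = u² x' + r`, `y = u³ y' + s u² x' + t` gives `ω = u⁻¹ ω_v`, and `adicAbv M v` is the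
normalized absolute value at `v`, equal to `(N v)⁻¹` for a uniformizer. -/
noncomputable def Omega {W : WeierstrassCurve M} (m : MinimalEquations W) : ℝ :=
  (∏ w : InfinitePlace M, if h : w.IsReal then
    realPeriod (W.map (InfinitePlace.embedding_of_isReal h)) else complexPeriod (W.map w.embedding)) *
    ∏ᶠ v : HeightOneSpectrum (𝓞 M), (adicAbv M v ((m.chg v).u : M))⁻¹

open Classical in
/-- The order of the torsion subgroup of `W(M)`. -/
noncomputable def torsOrder (W : WeierstrassCurve M) : ℕ :=
  Nat.card (AddCommGroup.torsion W.toAffine.Point)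

/-- The order of the Tate-Shafarevich group predicted by the formula in the case of rank zero, where
`l` is the value of the L-function at `s = 1`: `√|Disc M| #W(M)_tors² l / (Ω_{W/M} ∏ c_v)`. -/
noncomputable def anOrder {W : WeierstrassCurve M} (m : MinimalEquations W) (l : ℂ) : ℂ :=
  l * (√|(discr M : ℝ)| : ℝ) * (torsOrder W : ℂ) ^ 2 / ((Omega m : ℝ) * (Tam m : ℂ))

open Classical in
/-- The Euler factor at `v` of an integral equation which is minimal at `v`,
`(1 - a_v Nv^{-s} + Nv^{1-2s})⁻¹` if the reduction at `v` is good and `(1 - a_v Nv^{-s})⁻¹` if it is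
bad, where `a_v` is `Nv` minus the number of affine points of the reduction. -/
noncomputable def localFactor (W : WeierstrassCurve (𝓞 M)) (v : HeightOneSpectrum (𝓞 M)) (s : ℂ) :
    ℂ :=
  (1 - ((Ideal.absNorm v.asIdeal : ℂ)
        - (Nat.card {xy : (𝓞 M ⧸ v.asIdeal) × (𝓞 M ⧸ v.asIdeal) //
            (W.map (Ideal.Quotient.mk v.asIdeal)).toAffine.Equation xy.1 xy.2} : ℂ))
        * (Ideal.absNorm v.asIdeal : ℂ) ^ (-s)
    + (if W.Δ ∈ v.asIdeal then 0 else (Ideal.absNorm v.asIdeal : ℂ))
        * (Ideal.absNorm v.asIdeal : ℂ) ^ (-2 * s))⁻¹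

/-- `x` is an algebraic number, not zero, which is a unit at all the primes above two: `m x` and
`m' x⁻¹` are algebraic integers for some odd integers `m` and `m'`. -/
def UnitAboveTwo (x : ℂ) : Prop :=
  x ≠ 0 ∧ (∃ m : ℤ, Odd m ∧ _root_.IsIntegral ℤ (m * x)) ∧
    ∃ m : ℤ, Odd m ∧ _root_.IsIntegral ℤ (m * x⁻¹)

/-- **The 2-part of the formula of Birch and Swinnerton-Dyer, rank zero.**  `W(M)` has exactly four
elements, the 2-primary part of `Ш(W/M)` is finite and killed by `2`, and for some minimal equations of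
`W` at the finite places the product of the Euler factors for `Re s > 3/2` extends to an entire function
`Λ`, `Λ(1) ≠ 0`, the product of the Tamagawa numbers is `T`, and the predicted order of `Ш` divided by the
order of the 2-primary part of `Ш` is a unit at all the primes above two. -/
def TwoPart (W : WeierstrassCurve M) (T : ℕ) : Prop :=
  Nat.card W.toAffine.Point = 4 ∧ (Sha2 W).Finite ∧ (∀ x ∈ Sha2 W, 2 • x = 0) ∧
    ∃ m : MinimalEquations W, Tam m = T ∧
      ∃ Λ : ℂ → ℂ, Differentiable ℂ Λ ∧
        (∀ s : ℂ, 3 / 2 < s.re →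
          HasProd (fun v : HeightOneSpectrum (𝓞 M) => localFactor (m.eqn v) v s) (Λ s)) ∧
        Λ 1 ≠ 0 ∧ UnitAboveTwo (anOrder m (Λ 1) / ((Sha2 W).ncard : ℂ))

end terms

/-! ### The class and the pairs -/

/-- `D ≡ 1 mod 2 + 2i`. -/
def Primary (D : GaussianInt) : Prop := (⟨2, 2⟩ : GaussianInt) ∣ D - 1

/-- `x` is a square modulo `π`. -/
def IsSquareMod (x π : GaussianInt) : Prop := ∃ y : GaussianInt, π ∣ x - y ^ 2

/-- The class of the `D`: `D` is primary and squarefree, its norm is `5` modulo `8`, and there is no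
factorization `D = d d'` into primary factors not equal to `1` such that `d'` is a square modulo all
primary primes dividing `d`, and `d` is a square modulo all primary primes dividing `d'`. -/
def InClass (D : GaussianInt) : Prop :=
  Primary D ∧ Squarefree D ∧ D.norm % 8 = 5 ∧
    ∀ d d' : GaussianInt, Primary d → Primary d' → D = d * d' →
      (∀ π : GaussianInt, Prime π → Primary π → π ∣ d → IsSquareMod d' π) →
      (∀ π : GaussianInt, Prime π → Primary π → π ∣ d' → IsSquareMod d π) → d = 1 ∨ d' = 1

/-- The number of the primary primes which divide exactly one of `D` and `D'`. -/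
noncomputable def numOne (D D' : GaussianInt) : ℕ :=
  {π : GaussianInt | Prime π ∧ Primary π ∧ (π ∣ D ∧ ¬ π ∣ D' ∨ π ∣ D' ∧ ¬ π ∣ D)}.ncard

/-- The number of the primary primes which divide both `D` and `D'`. -/
noncomputable def numBoth (D D' : GaussianInt) : ℕ :=
  {π : GaussianInt | Prime π ∧ Primary π ∧ π ∣ D ∧ π ∣ D'}.ncard

/-- The number of the primary primes `π` which divide both `D` and `D'` such that `D D' / π²` is not a
square modulo `π`. -/
noncomputable def numInert (D D' : GaussianInt) : ℕ :=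
  {π : GaussianInt | Prime π ∧ Primary π ∧ π ∣ D ∧ π ∣ D' ∧
    ∃ x : GaussianInt, D * D' = π ^ 2 * x ∧ ¬ IsSquareMod x π}.ncard

section field

variable {K : Type} [Field K] [NumberField K]

/-- The curve `y² = x³ - D² x` over an extension `F` of `K = ℚ(i)`. -/
noncomputable def curve (e : GaussianInt ≃+* 𝓞 K) (D : GaussianInt) (F : Type) [Field F]
    [Algebra K F] : WeierstrassCurve F :=
  ⟨0, 0, 0, -(algebraMap K F ((e D : 𝓞 K) : K)) ^ 2, 0⟩

/-- `F = K(√a)`. -/
def Generated (e : GaussianInt ≃+* 𝓞 K) (a : GaussianInt) (F : Type) [Field F] [Algebra K F] : Prop :=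
  ∃ r : F, r ^ 2 = algebraMap K F ((e a : 𝓞 K) : K) ∧
    ∀ L : Subfield F, (∀ k : K, algebraMap K F k ∈ L) → r ∈ L → L = ⊤

end field

/-- The assertion on `D`.

* For every `N` there are infinitely many `D'` with `t + k = N + 2`, where `t` is the number of the
  primary primes which divide exactly one of `D` and `D'`, and `k` is the number of the primary primes
  `π` which divide both such that `D D' / π²` is not a square modulo `π`.
* For every field `K` with an isomorphism `e` of the ring of Gaussian integers with its ring of integers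
  (that is, `K = ℚ(i)`): the 2-part of the formula for `E_D` over `K`, the product of the Tamagawa numbers
  is `2 ^ (2 m + 1)`, where `m` is the number of the primary primes dividing `D`, and the 2-primary part of
  `Ш(E_D/K)` is zero.
* For every `D' ≠ D` in the class there is a field `F = K(√(D D'))`, and for all such `F`: `F` is a number
  field, `[F : K] = 2`, the 2-part of the formula holds for `E_D` over `F`, the product of the Tamagawa numbers is
  `2 ^ (4 s + 2 - 2 k)`, where `s` is the number of the primary primes dividing `D` and `D'`, the order of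
  the 2-primary part of `Ш(E_D/F)` is `4 ^ (t + k - 2)`, and `F` is not of the form `K(√(D D''))` for
  another `D'' ≠ D` in the class. -/
def Formula (D : GaussianInt) : Prop :=
  (∀ N : ℕ, {D' : GaussianInt | InClass D' ∧ D' ≠ D ∧
    numOne D D' + numInert D D' = N + 2}.Infinite) ∧
  ∀ (K : Type) [Field K] [NumberField K] (e : GaussianInt ≃+* 𝓞 K),
    TwoPart (curve e D K) (2 ^ (2 * numBoth D D + 1)) ∧ (Sha2 (curve e D K)).ncard = 1 ∧
    ∀ D' : GaussianInt, InClass D' → D' ≠ D →
      (∃ (F : Type) (_ : Field F) (_ : Algebra K F), Generated e (D * D') F) ∧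
      ∀ (F : Type) [Field F] [Algebra K F], Generated e (D * D') F →
        ∃ _ : NumberField F, Module.finrank K F = 2 ∧
          TwoPart (curve e D F) (2 ^ (4 * numBoth D D' + 2 - 2 * numInert D D')) ∧
          16 * (Sha2 (curve e D F)).ncard = 4 ^ (numOne D D' + numInert D D') ∧
          ∀ D'' : GaussianInt, InClass D'' → D'' ≠ D → Generated e (D * D'') F → D'' = D'

section proof

open Pool.Agent.Y699 (PP PS PD mem_PD qr Good qr_zero_iff PS_one)
open Pool.Agent.V7H91.GT
open Pool.Agent.V7H91.BF
open Pool.Agent.V7H91.BJ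
open Pool.Agent.V7H91.SH (aM)
open Pool.Agent.W164.RC (prim_iff_dvd)

theorem primary_iff (D : GaussianInt) :
    Primary D ↔ Pool.Agent.H304R2.EC.A1.prim D := (prim_iff_dvd D).symm

theorem pp_iff (π : GaussianInt) : PP π ↔ Prime π ∧ Primary π :=
  ⟨fun h => ⟨h.pr, (primary_iff π).2 h.prm⟩, fun h => ⟨h.1, (primary_iff π).1 h.2⟩⟩

theorem sq_iff {π x : GaussianInt} (h : ¬ π ∣ x) : IsSquareMod x π ↔ qr π x = 1 := by
  unfold IsSquareMod qr
  rw [if_neg h]
  constructor
  · intro h1
    rw [if_pos h1]
  · intro h1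
    by_contra h2
    rw [if_neg h2] at h1
    norm_num at h1

theorem nonsq_iff {π x : GaussianInt} : ¬ IsSquareMod x π ↔ qr π x = -1 := by
  by_cases h : π ∣ x
  · constructor
    · intro h1
      exact absurd ⟨0, by rw [zero_pow two_ne_zero, sub_zero]; exact h⟩ h1
    · intro h1
      unfold qr at h1
      rw [if_pos h] at h1
      norm_num at h1
  · rw [sq_iff h]
    rcases Pool.Agent.Y699.qr_cases h with h2 | h2 <;> rw [h2] <;> norm_num

theorem mem_PD' {D : GaussianInt} (hD : D ≠ 0) (π : GaussianInt) :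
    π ∈ PD D ↔ Prime π ∧ Primary π ∧ π ∣ D := by
  rw [mem_PD hD, pp_iff, and_assoc]

theorem good_iff (D : GaussianInt) : InClass D ↔ Good D := by
  constructor
  · rintro ⟨h1, h2, h3, h4⟩
    have hps : PS D := ⟨(primary_iff D).1 h1, h2⟩
    refine ⟨hps, h3, fun d d' hd hd' hdd ha hb => ?_⟩
    have hPd : PS d := hps.of_dvd hd ⟨d', hdd⟩
    have hPd' : PS d' := hps.of_dvd hd' ⟨d, by rw [hdd, mul_comm]⟩
    have hdis : ∀ π : GaussianInt, Prime π → π ∣ d → ¬ π ∣ d' := by
      intro π hπ hπd hπd'
      apply hπ.not_isUnit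
      apply hps.sqf
      rw [hdd]
      exact mul_dvd_mul hπd hπd'
    refine h4 d d' ((primary_iff d).2 hd) ((primary_iff d').2 hd') hdd ?_ ?_
    · intro π hπ hπ1 hπd
      rw [sq_iff (hdis π hπ hπd)]
      exact ha π ((mem_PD' hPd.ne π).2 ⟨hπ, hπ1, hπd⟩)
    · intro π hπ hπ1 hπd
      rw [sq_iff (fun h => hdis π hπ h hπd)]
      exact hb π ((mem_PD' hPd'.ne π).2 ⟨hπ, hπ1, hπd⟩)
  · intro h
    refine ⟨(primary_iff D).2 h.ps.prm, h.ps.sqf, h.five, fun d d' hd hd' hdd ha hb => ?_⟩
    have hPd : PS d := h.ps.of_dvd ((primary_iff d).1 hd) ⟨d', hdd⟩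
    have hPd' : PS d' := h.ps.of_dvd ((primary_iff d').1 hd') ⟨d, by rw [hdd, mul_comm]⟩
    have hdis : ∀ π : GaussianInt, Prime π → π ∣ d → ¬ π ∣ d' := by
      intro π hπ hπd hπd'
      apply hπ.not_isUnit
      apply h.ps.sqf
      rw [hdd]
      exact mul_dvd_mul hπd hπd'
    refine h.ker d d' ((primary_iff d).1 hd) ((primary_iff d').1 hd') hdd ?_ ?_
    · intro π hπ
      obtain ⟨h1, h2, h3⟩ := (mem_PD' hPd.ne π).1 hπ
      rw [← sq_iff (hdis π h1 h3)]
      exact ha π h1 h2 h3
    · intro π hπ
      obtain ⟨h1, h2, h3⟩ := (mem_PD' hPd'.ne π).1 hπ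
      rw [← sq_iff (fun h => hdis π h1 h h3)]
      exact hb π h1 h2 h3

theorem pr_of {D D' : GaussianInt} (hD : Good D) (h : InClass D') (hne : D' ≠ D) : Pr D D' :=
  ⟨hD, (good_iff D').1 h, fun h1 => hne h1.symm⟩

theorem both_self {D : GaussianInt} (hD : D ≠ 0) : numBoth D D = (PD D).card := by
  unfold numBoth
  rw [← Set.ncard_coe_finset]
  congr 1
  ext π
  rw [Finset.mem_coe, mem_PD' hD]
  show Prime π ∧ Primary π ∧ π ∣ D ∧ π ∣ D ↔ _
  rw [and_self]

section num

variable {K F : Type} [Field K] [NumberField K] [Field F] [NumberField F] [Algebra K F]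
  {e : GaussianInt ≃+* 𝓞 K} {g A B D D' l E : GaussianInt} {r : F}

theorem card_one (Q : Qp F e g A B D D' l E r) : numOne D D' = (PD l).card := by
  unfold numOne
  rw [← Set.ncard_coe_finset]
  congr 1
  ext π
  rw [Finset.mem_coe, card_l Q, pp_iff, and_assoc]
  rfl

theorem card_both (Q : Qp F e g A B D D' l E r) : numBoth D D' = (PD g).card := by
  unfold numBoth
  rw [← Set.ncard_coe_finset]
  congr 1
  ext π
  rw [Finset.mem_coe, mem_g Q, pp_iff, and_assoc]
  rfl

theorem card_inert (Q : Qp F e g A B D D' l E r) : numInert D D' = nI g l := by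
  unfold numInert nI
  rw [← Set.ncard_coe_finset]
  congr 1
  ext π
  rw [Finset.mem_coe, mem_I Q, pp_iff, and_assoc]
  show _ ∧ _ ∧ _ ∧ _ ∧ (∃ x : GaussianInt, D * D' = π ^ 2 * x ∧ ¬ IsSquareMod x π) ↔ _
  simp only [nonsq_iff]

end num

theorem every_order {D : GaussianInt} (hD : Good D) (N : ℕ) :
    {D' : GaussianInt | InClass D' ∧ D' ≠ D ∧ numOne D D' + numInert D D' = N + 2}.Infinite := by
  have h0 := (Pool.Agent.V7H91.BH.Ad_inf hD N).image (f := fun δ => D * δ)
    (fun a _ b _ hab => mul_left_cancel₀ hD.ps.ne hab)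
  refine h0.mono ?_
  rintro _ ⟨δ, ⟨h1, h2, h3⟩, rfl⟩
  have hne : D ≠ D * δ := by
    intro h
    apply h1.ne
    exact (mul_left_cancel₀ hD.ps.ne ((mul_one D).trans h)).symm
  have hcop : ∀ π : GaussianInt, PP π → π ∣ δ → ¬ π ∣ D := fun π h4 h5 =>
    h1.cop π ((mem_PD h1.ps.ne).2 ⟨h4, h5⟩)
  refine ⟨(good_iff _).2 h1.gl, hne.symm, ?_⟩
  · have e1 : numOne D (D * δ) = (PD δ).card := by
      unfold numOne
      rw [← Set.ncard_coe_finset]
      congr 1
      ext π
      rw [Finset.mem_coe, mem_PD h1.ps.ne]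
      show Prime π ∧ Primary π ∧ (π ∣ D ∧ ¬ π ∣ D * δ ∨ π ∣ D * δ ∧ ¬ π ∣ D) ↔ _
      rw [← and_assoc, ← pp_iff]
      refine and_congr_right fun hπ => ⟨?_, fun h => Or.inr ⟨h.mul_left _, hcop π hπ h⟩⟩
      rintro (⟨h4, h5⟩ | ⟨h4, h5⟩)
      · exact absurd (h4.mul_right _) h5
      · exact (hπ.pr.dvd_or_dvd h4).resolve_left h5
    have e2 : numInert D (D * δ) = Pool.Agent.V7H91.BH.nI D δ := by
      unfold numInert Pool.Agent.V7H91.BH.nI
      rw [← Set.ncard_coe_finset]
      congr 1
      ext π
      rw [Finset.mem_coe, Finset.mem_filter, mem_PD hD.ps.ne]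
      show Prime π ∧ Primary π ∧ π ∣ D ∧ π ∣ D * δ ∧
        (∃ x : GaussianInt, D * (D * δ) = π ^ 2 * x ∧ ¬ IsSquareMod x π) ↔ _
      rw [← and_assoc, ← pp_iff, and_assoc]
      refine and_congr_right fun hπ => and_congr_right fun hπD => ?_
      obtain ⟨w, hw⟩ := hπD
      have hw' : ¬ π ∣ w := fun h => hπ.pr.not_isUnit (hD.ps.sqf π (by
        rw [hw]; exact mul_dvd_mul_left π h))
      have key : ∀ x : GaussianInt, D * (D * δ) = π ^ 2 * x → qr π x = qr π δ := by
        intro x hx
        have e3 : x = w * w * δ := by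
          apply mul_left_cancel₀ (pow_ne_zero 2 hπ.pr.ne_zero)
          rw [← hx, hw]; ring
        rw [e3, Pool.Agent.Y699.qr_mul hπ, Pool.Agent.Y699.qr_mul hπ, Pool.Agent.Y699.qr_sq hw',
          one_mul]
      constructor
      · rintro ⟨-, x, hx, h4⟩
        rw [← key x hx]
        exact nonsq_iff.1 h4
      · intro h4
        refine ⟨(Dvd.intro _ hw.symm).mul_right _, w * w * δ, by rw [hw]; ring, ?_⟩
        rw [nonsq_iff, key _ (by rw [hw]; ring)]
        exact h4
    rw [e1, e2, h2, h3]

/-- a criterion for units above two -/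
theorem unit_of_val {x : ℂ} (h : ∀ (Γ : Type) [LinearOrderedCommGroupWithZero Γ]
    (v : Valuation ℂ Γ), v 2 < 1 → v x = 1) : UnitAboveTwo x := by
  refine ⟨?_, Pool.Agent.Y698.int_of_val fun Γ _ v hv => (h Γ v hv).le,
    Pool.Agent.Y698.int_of_val fun Γ _ v hv => by rw [map_inv₀, h Γ v hv, inv_one]⟩
  rintro rfl
  refine Pool.Agent.Y698.SG.exists_val2 fun Γ _ v hv => ?_
  have h5 := h Γ v hv
  rw [map_zero] at h5
  exact zero_ne_one h5

section field

variable {K : Type} [Field K] [NumberField K]

/-- There is a field generated by a square root. -/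
theorem exists_generated (e : GaussianInt ≃+* 𝓞 K) (a : GaussianInt) :
    ∃ (F : Type) (_ : Field F) (_ : Algebra K F), Generated e a F := by
  classical
  obtain ⟨r, hr⟩ : ∃ x : AlgebraicClosure K,
      x ^ 2 = algebraMap K (AlgebraicClosure K) ((e a : 𝓞 K) : K) :=
    IsAlgClosed.exists_pow_nat_eq _ (by norm_num)
  let M : IntermediateField K (AlgebraicClosure K) := IntermediateField.adjoin K {r}
  have hrM : r ∈ M := IntermediateField.subset_adjoin K _ rfl
  refine ⟨M, inferInstance, inferInstance, ⟨r, hrM⟩, ?_, fun L hL1 hL2 => ?_⟩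
  · apply Subtype.ext
    exact hr
  · rw [eq_top_iff]
    intro y _
    let L' : IntermediateField K (AlgebraicClosure K) :=
      { (L.map (algebraMap M (AlgebraicClosure K))) with
        algebraMap_mem' := fun k => ⟨algebraMap K M k, hL1 k, rfl⟩ }
    have h1 : M ≤ L' := by
      apply IntermediateField.adjoin_le_iff.2
      rintro _ rfl
      exact ⟨_, hL2, rfl⟩
    obtain ⟨y', hy', h2⟩ := h1 y.2
    have h3 : y' = y := Subtype.ext h2
    rw [← h3]
    exact hy'

theorem tors_four {M : Type} [Field M] [NumberField M] {W : WeierstrassCurve M}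
    (hc : Nat.card W.toAffine.Point = 4) : torsOrder W = 4 := by
  classical
  unfold torsOrder
  have hfin : Finite W.toAffine.Point := by
    apply Nat.finite_of_card_ne_zero
    rw [hc]
    norm_num
  have htop : AddCommGroup.torsion W.toAffine.Point = ⊤ := by
    rw [AddSubgroup.eq_top_iff']
    intro x
    exact isOfFinAddOrder_of_finite x
  rw [htop, AddSubgroup.card_top]
  exact hc

theorem minimalAt_crv {M : Type} [Field M] [NumberField M] [Algebra K M]
    (e : GaussianInt ≃+* 𝓞 K) {D : GaussianInt} (hD : PS D) {v : HeightOneSpectrum (𝓞 M)}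
    (hun : Unr e D v) : MinimalAt (Pool.Agent.Y699.crv (aM M e D)) v := by
  refine ⟨⟨?_, ?_, ?_, ?_, ?_⟩, fun C hC => ?_⟩
  · exact (map_zero (v.valuation M)).trans_le zero_le_one
  · exact (map_zero (v.valuation M)).trans_le zero_le_one
  · exact (map_zero (v.valuation M)).trans_le zero_le_one
  · show v.valuation M (-(aM M e D) ^ 2) ≤ 1
    have h0 : v.valuation M (algebraMap (𝓞 M) M (io M e D)) ≤ 1 := v.valuation_le_one _
    rw [Valuation.map_neg, map_pow]
    exact pow_le_one₀ zero_le h0
  · exact (map_zero (v.valuation M)).trans_le zero_le_one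
  · obtain ⟨h1, h2, h3, h4, h6⟩ := hC
    exact Pool.Agent.V7H91.BF.minimal e hD hun C h1 h2 h3 h4 h6

/-- from the valuations to the formula -/
theorem two_part {M : Type} [Field M] [NumberField M] {W : WeierstrassCurve M} {T : ℕ} {Λ : ℂ → ℂ}
    (hc : Nat.card W.toAffine.Point = 4) (hf : (Sha2 W).Finite) (h2 : ∀ x ∈ Sha2 W, 2 • x = 0)
    (m : MinimalEquations W) (hT : Tam m = T) (hΛ : Differentiable ℂ Λ)
    (hE : ∀ s : ℂ, 3 / 2 < s.re →
      HasProd (fun v : HeightOneSpectrum (𝓞 M) => localFactor (m.eqn v) v s) (Λ s)) {n : ℕ}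
    (hn : Odd n)
    (hs : ∏ᶠ v : HeightOneSpectrum (𝓞 M), (adicAbv M v ((m.chg v).u : M))⁻¹ = (n : ℝ)) {a b : ℕ}
    (hv : ∀ (Γ : Type) [LinearOrderedCommGroupWithZero Γ] (v : Valuation ℂ Γ), v 2 < 1 →
      v (Λ 1 * (√|(discr M : ℝ)| : ℝ) * ((4 : ℕ) : ℂ) ^ 2 / ((Om W : ℝ) * (T : ℂ))) * v 2 ^ a =
        v 2 ^ b)
    (hS : 2 ^ a * (Sha2 W).ncard = 2 ^ b) : TwoPart W T := by
  classical
  have hO : Omega m = Om W * n := by
    unfold Omega
    rw [hs]
    rfl
  have key : ∀ (Γ : Type) [LinearOrderedCommGroupWithZero Γ] (v : Valuation ℂ Γ), v 2 < 1 →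
      v (anOrder m (Λ 1) / ((Sha2 W).ncard : ℂ)) = 1 := by
    intro Γ _ v hv2
    have h1 : anOrder m (Λ 1) =
        Λ 1 * (√|(discr M : ℝ)| : ℝ) * ((4 : ℕ) : ℂ) ^ 2 / ((Om W : ℝ) * (T : ℂ)) / (n : ℂ) := by
      unfold anOrder
      rw [tors_four hc, hO, hT, div_div]
      congr 1
      push_cast
      ring
    have h5 : v ((Sha2 W).ncard : ℂ) * v 2 ^ a = v 2 ^ b := by
      rw [← map_pow, ← map_pow, ← map_mul]
      congr 1
      have h6 : ((2 ^ a * (Sha2 W).ncard : ℕ) : ℂ) = ((2 ^ b : ℕ) : ℂ) := by rw [hS]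
      push_cast at h6
      rw [mul_comm]
      exact h6
    have ha0 : v 2 ≠ 0 := by
      rw [Valuation.ne_zero_iff]
      exact two_ne_zero
    have h7 : v (anOrder m (Λ 1)) = v ((Sha2 W).ncard : ℂ) := by
      rw [h1, map_div₀, v_odd hv2 hn, div_one]
      exact mul_right_cancel₀ (pow_ne_zero _ ha0) ((hv Γ v hv2).trans h5.symm)
    have h8 : v ((Sha2 W).ncard : ℂ) ≠ 0 := by
      intro h9
      rw [h9, zero_mul] at h5
      exact pow_ne_zero _ ha0 h5.symm
    rw [map_div₀, h7]
    exact div_self h8
  have hu : UnitAboveTwo (anOrder m (Λ 1) / ((Sha2 W).ncard : ℂ)) := unit_of_val key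
  refine ⟨hc, hf, h2, m, hT, Λ, hΛ, hE, ?_, hu⟩
  intro h0
  apply hu.1
  rw [h0]
  unfold anOrder
  simp

/-- the minimal equations given by numbers -/
theorem exists_eqs {F : Type} [Field F] [NumberField F] [Algebra K F]
    (e : GaussianInt ≃+* 𝓞 K) (D : GaussianInt) (q : HeightOneSpectrum (𝓞 F) → GaussianInt)
    (C : HeightOneSpectrum (𝓞 F) → VariableChange F)
    (hC : ∀ v, C v • Pool.Agent.Y699.crv (aM F e D) = Pool.Agent.Y699.crv (aM F e (q v)))
    (hq : ∀ v, PS (q v) ∧ Unr e (q v) v) : ∃ m : MinimalEquations (curve e D F), m.chg = C ∧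
      ∀ v, m.eqn v = Pool.Agent.Y699.crv (io F e (q v)) := by
  have e0 : curve e D F = Pool.Agent.Y699.crv (aM F e D) := rfl
  have e1 : ∀ v, (Pool.Agent.Y699.crv (io F e (q v))).map (algebraMap (𝓞 F) F) =
      Pool.Agent.Y699.crv (aM F e (q v)) := fun v =>
    Pool.Agent.Y699.crv_map (algebraMap (𝓞 F) F) (io F e (q v))
  refine ⟨⟨fun v => Pool.Agent.Y699.crv (io F e (q v)), C, fun v => ?_, fun v => ?_⟩, rfl,
    fun v => rfl⟩
  · rw [e0, hC v, e1 v]
  · rw [e0, hC v]
    exact minimalAt_crv e (hq v).1 (hq v).2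

/-- the formula over `F` -/
theorem over_F (e : GaussianInt ≃+* 𝓞 K) {D D' : GaussianInt} (hP' : Pr D D') (F : Type) [Field F]
    [Algebra K F] (hF : Generated e (D * D') F) :
    ∃ _ : NumberField F, Module.finrank K F = 2 ∧
      TwoPart (curve e D F) (2 ^ (4 * numBoth D D' + 2 - 2 * numInert D D')) ∧
      16 * (Sha2 (curve e D F)).ncard = 4 ^ (numOne D D' + numInert D D') ∧
      ∀ D'' : GaussianInt, InClass D'' → D'' ≠ D → Generated e (D * D'') F → D'' = D' := by
  classical
  obtain ⟨r, hr, hg⟩ := hF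
  haveI : FiniteDimensional K F := (gal2 (I := Unit) (fun _ => ((e (D * D') : 𝓞 K) : K))
    (fun _ => r) (fun _ => hr) (fun L h1 h2 => hg L h1 (h2 ()))).1
  haveI hnf : NumberField F := NumberField.of_module_finite K F
  obtain ⟨hgal, g, A, B, -, -, Q⟩ := hP'.qp (F := F) (e := e) (r := r) hr hg
  haveI := hgal
  obtain ⟨C, hC, n, hn, hCn⟩ := exists_chg Q
  obtain ⟨Λ, h1, h2, h3⟩ := layerQ Q
  have hsha : 16 * (Sha2 (curve e D F)).ncard = 4 ^ (numOne D D' + numInert D D') := by
    rw [card_one Q, card_inert Q, add_comm, ← nb_eq Q, ← cardQ Q, ← Nat.card_coe_set_eq]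
    rfl
  have hI : nI g (A * B) ≤ (PD g).card := nI_le
  obtain ⟨m, hm1, hm2⟩ := exists_eqs e D (cc F e A D D') C hC (fun v => unrC Q v)
  have e0 : curve e D F = Pool.Agent.Y699.crv (aM F e D) := rfl
  have hT0 : ∏ᶠ v : HeightOneSpectrum (𝓞 F),
      Pool.Agent.Y698.tam (Pool.Agent.Y699.crv (aM F e (cc F e A D D' v))) v =
      2 ^ (4 * numBoth D D' + 2 - 2 * numInert D D') := by
    rw [card_both Q, card_inert Q]
    have h5 := tamQ' Q
    have h6 : 4 * (PD g).card + 2 = (4 * (PD g).card + 2 - 2 * nI g (A * B)) + 2 * nI g (A * B) := by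
      omega
    rw [h6, pow_add] at h5
    exact Nat.eq_of_mul_eq_mul_right (by positivity) h5
  have hT : Tam m = 2 ^ (4 * numBoth D D' + 2 - 2 * numInert D D') := by
    rw [← hT0]
    refine finprod_congr fun v => ?_
    rw [hm1, e0, hC v]
    rfl
  refine ⟨hnf, Q.rank, ?_, hsha, fun D'' hD'' hne'' hF'' => ?_⟩
  · refine two_part (n := n) (a := 4) (b := 2 * nb (g * A * B) g (A * B)) Q.card_pts (finQ Q)
      (fun x hx => killQ Q x hx) m hT h1 ?_ hn (by rw [hm1]; exact hCn) ?_ ?_
    · refine h2 m.eqn fun v => ?_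
      rcases em (io F e A ∈ v.asIdeal) with hA | hA
      · rw [hm2, cc_A hA]
        exact (Q.MinAt_iff _).2 (crv_minM e Q.gd'.ps (Q.unrD' (Q.A_B hA)))
      · rw [hm2, cc_not hA]
        exact crv_minM e Q.gd.ps (Q.unrD hA)
    · intro Γ _ v hv
      have h8 := h3 Γ v hv
      rw [hT0] at h8
      exact h8
    · have h9 : (2 : ℕ) ^ 4 = 16 := by norm_num
      rw [h9, hsha, card_one Q, card_inert Q, nb_eq Q, pow_mul, add_comm]
      norm_num
  · obtain ⟨r', hr', hg'⟩ := hF''
    exact (hP'.unique (pr_of hP'.gd hD'' hne'') hr hr' hg hg').symm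

/-- the formula over `K` -/
theorem over_K (e : GaussianInt ≃+* 𝓞 K) {D : GaussianInt} (hD : Good D) :
    TwoPart (curve e D K) (2 ^ (2 * numBoth D D + 1)) ∧ (Sha2 (curve e D K)).ncard = 1 := by
  classical
  have A := Pool.Agent.V7H91.BI.av_empty hD
  have h : Pool.Agent.V7H91.BI.Rv K e (∅ : Finset GaussianInt) (fun _ => (0 : K)) :=
    ⟨fun T hT => A.ps hT, A.ne1, fun l hl => absurd hl (Finset.notMem_empty l), fun L hL _ => by
      rw [eq_top_iff]
      intro x _
      exact hL x⟩
  haveI := h.galF
  obtain ⟨y, C, -⟩ := h.ctx A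
  have hun : ∀ v, Unr e D v := fun v => Pool.Agent.V7H91.BH.unrW e C A.lh v
  obtain ⟨Λ, h1, h2, h3⟩ := Pool.Agent.V7H91.BI.layer A h
  have hk : Pool.Agent.V7H91.BI.kk D ∅ = 0 := by
    unfold Pool.Agent.V7H91.BI.kk
    simp
  have hS : (Sha2 (curve e D K)).ncard = 1 := by
    have h4 := Pool.Agent.V7H91.BI.sha_card A h (by simp)
    rw [hk, Finset.card_empty, Finset.prod_empty, Pool.Agent.Y699.PD_one, Finset.card_empty] at h4
    have h5 : Nat.card {x : Sha (Pool.Agent.Y699.crv (aM K e D)) // ∃ n : ℕ, 2 ^ n • x = 0} = 1 := by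
      norm_num at h4
      exact h4
    rw [← h5, ← Nat.card_coe_set_eq]
    rfl
  have hC : ∀ v : HeightOneSpectrum (𝓞 K), (1 : VariableChange K) • Pool.Agent.Y699.crv (aM K e D) =
      Pool.Agent.Y699.crv (aM K e D) := fun v => one_smul _ _
  obtain ⟨m, hm1, hm2⟩ := exists_eqs e D (fun _ => D) (fun _ => 1) hC (fun v => ⟨hD.ps, hun v⟩)
  have e0 : curve e D K = Pool.Agent.Y699.crv (aM K e D) := rfl
  have hT0 : ∏ᶠ v : HeightOneSpectrum (𝓞 K),
      Pool.Agent.Y698.tam (Pool.Agent.Y699.crv (aM K e D)) v = 2 ^ (2 * numBoth D D + 1) := by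
    rw [both_self hD.ps.ne]
    have h5 := Pool.Agent.V7H91.BI.tam_layer A h
    rw [hk, Finset.card_empty, pow_zero, one_mul, one_mul, pow_zero, mul_one] at h5
    exact h5
  have hT : Tam m = 2 ^ (2 * numBoth D D + 1) := by
    rw [← hT0]
    refine finprod_congr fun v => ?_
    rw [hm1, e0, hC v]
    rfl
  refine ⟨two_part (n := 1) (a := 4) (b := 4) (Pool.Agent.V7H91.BI.cardF h A)
    (Pool.Agent.V7H91.BI.sha_fin A h) (fun x hx => ?_) m hT h1 ?_ odd_one ?_ ?_ ?_, hS⟩
  · have h5 := Pool.Agent.V7H91.BI.sha_kill A h x hx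
    rw [Finset.card_empty, pow_zero, one_smul] at h5
    have h6 : 2 • (0 : Sha (curve e D K)) = 0 := nsmul_zero 2
    rw [h5]
    exact h6
  · refine h2 m.eqn fun v => ?_
    rw [hm2]
    exact crv_minM e hD.ps (hun v)
  · rw [Nat.cast_one, hm1]
    refine finprod_eq_one_of_forall_eq_one fun v => ?_
    have : ((1 : VariableChange K).u : K) = 1 := rfl
    rw [this, map_one, inv_one]
  · intro Γ _ v hv
    have h8 := h3 Γ v hv
    rw [hk, Finset.card_empty, Finset.prod_empty, Pool.Agent.Y699.PD_one, Finset.card_empty] at h8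
    have h9 : quo K (Pool.Agent.Y699.crv (aM K e D)) 4 (Λ 1) =
        Λ 1 * (√|(discr K : ℝ)| : ℝ) * ((4 : ℕ) : ℂ) ^ 2 / ((Om (curve e D K) : ℝ) *
          ((2 ^ (2 * numBoth D D + 1) : ℕ) : ℂ)) := by
      unfold quo
      rw [hT0]
      rfl
    rw [h9] at h8
    exact h8
  · rw [hS, mul_one]

end field

theorem formula_of {D : GaussianInt} (hD : Good D) : Formula D := by
  refine ⟨every_order hD, fun K _ _ e => ?_⟩
  obtain ⟨h1, h2⟩ := over_K e hD
  exact ⟨h1, h2, fun D' hD' hne => ⟨exists_generated e (D * D'), fun F _ _ hF =>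
    over_F e (pr_of hD hD' hne) F hF⟩⟩

end proof

/-- **Main theorem.**  All `D` in the class have the property `Formula`, and for a positive constant `c`
and all large `X` the class has at least `c X` elements of norm at most `X`. -/
theorem result : (∀ D : GaussianInt, InClass D → Formula D) ∧
    ∃ c : ℝ, 0 < c ∧ ∃ X₀ : ℕ, ∀ X : ℕ, X₀ ≤ X →
      c * X ≤ ({D : GaussianInt | D.norm ≤ X ∧ InClass D}.ncard : ℝ) := by
  refine ⟨fun D hD => formula_of ((good_iff D).1 hD), ?_⟩
  obtain ⟨c, hc, X₀, h⟩ := Pool.Agent.Y699.positive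
  refine ⟨c, hc, X₀, fun X hX => (h X hX).trans ?_⟩
  have h1 : ((Pool.Agent.Y699.GB X : Finset GaussianInt) : Set GaussianInt) ⊆
      {D : GaussianInt | D.norm ≤ X ∧ InClass D} := by
    intro D hD
    have h2 : D ∈ Pool.Agent.Y699.SB X ∧ Pool.Agent.Y699.Good D := by
      have h0 := Finset.mem_coe.1 hD
      unfold Pool.Agent.Y699.GB at h0
      classical
      exact Finset.mem_filter.1 h0
    have h3 := (Pool.Agent.Y699.mem_SB).1 h2.1
    refine ⟨?_, (good_iff D).2 h2.2⟩
    have h4 : D.norm.natAbs ≤ X := h3.1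
    omega
  have hfin : {D : GaussianInt | D.norm ≤ X ∧ InClass D}.Finite := by
    refine (Pool.Agent.Y699.fin_norm_le X).subset ?_
    rintro D ⟨h3, -⟩
    have h0 := GaussianInt.norm_nonneg D
    show D.norm.natAbs ≤ X
    omega
  have h5 := Set.ncard_le_ncard h1 hfin
  rw [Set.ncard_coe_finset] at h5
  exact_mod_cast h5

end Pool.Agent.Results.MP_1a91b9_nt.FormulaQuadraticFieldsH91
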