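import Pool.Agent.V7H80.MQ.Main

/-!
# The rank part of the conjecture for the twists of `X_0(49)` over multiquadratic fields

The class consists of the squarefree numbers `D ≥ 1` with all prime factors `≡ 1 mod 4`, and `E_M` is the
quadratic twist by `M` of `X_0(49) : y² + x y = x³ - x² - 2 x - 1`. Let `d_1, …, d_n` be numbers of the
class, independent modulo squares, and `F = ℚ(√d_1, …, √d_n)`, a totally real field of degree `2 ^ n`.

* If the `2 ^ n` curves `E_N` over `ℚ`, `N` in the class and `N M ∏_{i ∈ T} d_i` a square for some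
  `T ⊆ {1, …, n}`, have finitely many rational points and `Ш(E_N/ℚ)[2] = 0` (`Good M d`), then the
  complete Hasse-Weil L-function of `E_M` over `F` is entire, it is not zero at `s = 1`, and `E_M(F)` is
  finite: the rank part of the conjecture, with order and rank zero.
* For every `M` of the class this is the case for the twists `E_{M D}` by exactly the proportion
  `c ^ (2 ^ n)` of the `D` of the class, `c = ∏_{i ≥ 0} (1 - 2^{-(2i+1)}) = 0.4194...`.
* If it is the case for `M` and `F`, then it is the case for `M` and `F(√D)`, and this is a field of degree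
  `2 ^ (n + 1)`, for exactly the proportion `c ^ (2 ^ n)` of the `D` of the class.
* For every finite set `A` of numbers `M` with `E_M(ℚ)` finite and `Ш(E_M/ℚ)[2] = 0` there are an infinite
  set `𝓜 ⊇ A` of numbers and an infinite group `H` of numbers of the class such that the rank part of the
  conjecture, with order and rank zero, is true for all the curves `E_M`, `M ∈ 𝓜`, over all the number
  fields generated by square roots of elements of `H`.

The proof: the splitting of the primes in `F`; the Euler factors of `E_M` at the places of `F` above `p`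
multiply to those of the `E_N` at `p`, also at the primes ramified in `F` which divide `M`, where `E_M`
acquires good reduction; the nonvanishing at `s = 1` over `ℚ` and the joint law are from the starting
files (`Y698/SG`, `MP_4a9ea6_nt/TwoPartTwistsX49`, `MP_03e5d0_nt/FullClassX49`).
-/

set_option autoImplicit false

open NumberField Filter Topology

namespace Pool.Agent.Results.MP_1a91b9_nt.MultiquadraticTowersH80

open Pool.Agent.Results.MP_4a9ea6_nt.TwoPartTwistsX49 (twist)
open Pool.Agent.Results.MP_92892c_nt.FullClassTwoPartX49 (Family RankZeroShaTwo num)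
open Pool.Agent.Results.MP_03e5d0_nt.FullClassX49 (tw c)

/-- The curve `E_M : y² + x y = x³ - (3 M + 1)/4 x² - 2 M² x - M³` over the field `F`. -/
abbrev curve (M : ℕ) (F : Type) [Field F] : WeierstrassCurve F :=
  (twist M).map (Int.castRingHom F)

/-- The numbers `d i` are independent modulo squares. -/
def Independent {n : ℕ} (d : Fin n → ℕ) : Prop :=
  ∀ T : Finset (Fin n), T.Nonempty → ¬ IsSquare (∏ i ∈ T, d i)

/-- The field `F` is generated by square roots of the `d i`. -/
def GeneratedBy (F : Type) [Field F] {n : ℕ} (d : Fin n → ℕ) : Prop :=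
  ∃ x : Fin n → F, (∀ i, x i ^ 2 = (d i : F)) ∧ ∀ L : Subfield F, (∀ i, x i ∈ L) → L = ⊤

/-- For all `N` in the class such that `N M ∏_{i ∈ T} d_i` is a square for some `T`, the group
`E_N(ℚ)` is finite and `Ш(E_N/ℚ)` has no element of order two. -/
def Good (M : ℕ) {n : ℕ} (d : Fin n → ℕ) : Prop :=
  ∀ (T : Finset (Fin n)) (N : ℕ), Family N → IsSquare (N * M * ∏ i ∈ T, d i) → RankZeroShaTwo N

open Classical in
/-- The rank part of the conjecture for `E_M` over `F`, and both sides are zero: the complete Hasse-Weil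
L-function has an entire continuation `Λ`, `Λ(1) ≠ 0`, and `E_M(F)` is finite. -/
def RankZeroOver (M : ℕ) (F : Type) [Field F] [NumberField F] : Prop :=
  (∃ Λ : ℂ → ℂ, Differentiable ℂ Λ ∧ (∀ s : ℂ, 2 < s.re → Λ s = (curve M F).LSeries s) ∧
    Λ 1 ≠ 0) ∧ Finite (curve M F).toAffine.Point

/-- `H` is a group of numbers of the class, with the squarefree part of the product. -/
structure IsGroup (H : Set ℕ) : Prop where
  family : ∀ N ∈ H, Family N
  one : 1 ∈ H
  mul : ∀ N ∈ H, ∀ N' ∈ H, tw N N' ∈ H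

theorem result :
    (∀ (n : ℕ) (d : Fin n → ℕ) (M : ℕ), Family M → (∀ i, Family (d i)) → Independent d →
      Good M d → ∀ (F : Type) [Field F] [NumberField F], GeneratedBy F d →
        Module.finrank ℚ F = 2 ^ n ∧ IsTotallyReal F ∧ RankZeroOver M F) ∧
    (∀ (n : ℕ) (d : Fin n → ℕ) (M : ℕ), Family M → (∀ i, Family (d i)) → Independent d →
      Tendsto (fun X : ℕ => (num (fun D => Good (tw M D) d) X : ℝ) / (num (fun _ => True) X : ℝ))
        atTop (𝓝 (c ^ 2 ^ n)) ∧
      ∃ (a : ℝ) (X₀ : ℕ), 0 < a ∧ ∀ X : ℕ, X₀ ≤ X →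
        a * X / Real.sqrt (Real.log X) ≤ (num (fun D => Good (tw M D) d) X : ℝ)) ∧
    (∀ (n : ℕ) (d : Fin n → ℕ) (M : ℕ), Family M → (∀ i, Family (d i)) → Independent d →
      Good M d →
      Tendsto (fun X : ℕ => (num (fun D => Independent (Fin.snoc d D : Fin (n + 1) → ℕ) ∧
          Good M (Fin.snoc d D : Fin (n + 1) → ℕ)) X : ℝ) / (num (fun _ => True) X : ℝ))
        atTop (𝓝 (c ^ 2 ^ n))) ∧
    (∀ A : Finset ℕ, (∀ M ∈ A, Family M ∧ RankZeroShaTwo M) →
      ∃ 𝓜 H : Set ℕ, (A : Set ℕ) ⊆ 𝓜 ∧ 𝓜.Infinite ∧ H.Infinite ∧ (∀ M ∈ 𝓜, Family M) ∧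
        IsGroup H ∧ ∀ M ∈ 𝓜, ∀ (n : ℕ) (d : Fin n → ℕ), (∀ i, d i ∈ H) →
          ∀ (F : Type) [Field F] [NumberField F], GeneratedBy F d →
            IsTotallyReal F ∧ RankZeroOver M F) ∧
    0.4194 < c ∧ c < 0.4195 := by
  refine ⟨?_, ?_, ?_, ?_, Pool.Agent.Results.MP_03e5d0_nt.FullClassX49.result.2.2.1,
    Pool.Agent.Results.MP_03e5d0_nt.FullClassX49.result.2.2.2⟩
  · rintro n d M hM hd hind hg F _ _ ⟨x, h1, h2⟩
    obtain ⟨h3, h4, h5⟩ := Pool.Agent.V7H80.MQ.main hM hd hind hg ⟨h1, h2⟩
    exact ⟨h3, h4, h5.an, h5.fin⟩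
  · intro n d M hM hd hind
    exact Pool.Agent.V7H80.MQ.law_field hM hd hind
  · intro n d M hM hd hind hg
    exact Pool.Agent.V7H80.MQ.law_ext hM hd hind hg
  · intro A hA
    obtain ⟨𝓜, H, h1, h2, h3, h4, h5, h6⟩ := Pool.Agent.V7H80.MQ.towers hA
    refine ⟨𝓜, H, h1, h2, h3, h4, ⟨h5.fam, h5.one, h5.mul⟩, ?_⟩
    rintro M hM n d hd F _ _ ⟨x, k1, k2⟩
    obtain ⟨-, h7, h8⟩ := Pool.Agent.V7H80.MQ.main_grp h5 (h4 M hM) (h6 M hM) hd ⟨k1, k2⟩
    exact ⟨h7, h8.an, h8.fin⟩

end Pool.Agent.Results.MP_1a91b9_nt.MultiquadraticTowersH80
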