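import Pool.Agent.N41.RM.Abs
import Pool.Agent.V7H44.BS.Asm
import Pool.Agent.V7H44.BS.Good

/-!
# Order and leading coefficient of `L(E/K, s)` at `s = 1` from finite rotated products of the
# numbers of points, for every number field `K`

Let `E` be an elliptic curve over a number field `K`, `N_v` the number of points modulo `v`, `q_v` the
norm of `v` and `N'_v = 2 q_v + 2 - N_v` (the number of points of the quadratic twist of the reduction).
At the places of bad reduction `N_v / q_v = P_v(1 / q_v)` and `N'_v / q_v = P_v(-1 / q_v)` with the local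
polynomial `P_v` of the `L`-function.  Birch and Swinnerton-Dyer considered the products of the
`N_v / q_v` over `q_v ≤ X`; their conjectured behaviour `C (log X) ^ rank` implies the Riemann hypothesis
for `L(E/K, s)` (Goldfeld for `K = ℚ`; Kuo and Murty, K. Conrad).

Here the finite products get the exponents

`Π_γ(X) = ∏_{q_v ≤ X} (N_v / q_v) ^ ((k(u) + k(2u)) / 2) (N'_v / q_v) ^ ((k(2u) - k(u)) / 2)`,

`k(u) = e^{iγu} / Γ(1 + u)`, `u = log q_v / log log X`, which tend to `1` and `0` for fixed `v`.  For every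
`E` whose `L`-function continues meromorphically to a neighbourhood of the real segment, and for every
`γ > π/2`, it is shown without any hypothesis on the zeros that

`Π_γ(X) = (log log X) ^ r (e^{-rΛ} / B + O(1 / log log X))`,

`r` = order and `B` = leading coefficient of the complete `L`-function of `E` over `K` at `s = 1`,
`Λ = ∫_0^∞ (e^{-t} - k(t)) dt / t`; and that such a relation with any `ρ`, `A` in place of `r`, `B`, even
along a single sequence of `X`, implies `ρ = r`, `A = B`.  So both parts of the conjecture of Birch and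
Swinnerton-Dyer for `E/K` are equivalent to an asymptotic formula for these finite products.  For `γ = 0`
this is so if and only if `L(E/K, s)` has no zeros (or poles) on the real axis to the right of `1`.

The proof.  The rotated Mittag-Leffler sum of the full Dirichlet series of `log L` is treated in
`Pool.Agent.W187.UR.NF` (unused so far).  New: the terms with the third and higher powers contribute
`O(1 / T)`, `T = log log X`, as the kernel is Lipschitz, and the first two powers combine into the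
numbers `N_v`, `N'_v` (so no theorem of Rankin and Selberg is needed, and no factor `√2` occurs); the terms
with `log q_v > e^T` are `O(1 / T)` as `1 / Γ(1 + u)` decays superexponentially; Hasse's bound is used in odd
characteristic and a trivial bound at the places above two.
-/

set_option autoImplicit false

namespace Pool.Agent.Results.MP_1a91b9_nt.RotatedProductsH44

open Filter Topology Set NumberField IsDedekindDomain

variable {K : Type} [Field K] [NumberField K]

/-- the norm `q_v` of a finite place `v` -/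
noncomputable def q (v : HeightOneSpectrum (𝓞 K)) : ℝ := (Ideal.absNorm v.asIdeal : ℕ)

/-- `P_v(t / q_v)`, `P_v` the local polynomial at `v` in Mathlib's definition of the `L`-function of
`E` over `K`.  This is `N_v / q_v` for `t = 1` and `N'_v / q_v` for `t = -1`. -/
noncomputable def ratio (E : WeierstrassCurve K) (t : ℝ) (v : HeightOneSpectrum (𝓞 K)) : ℝ :=
  Polynomial.aeval (t / q v)
    ((E.baseChange (v.adicCompletion K)).localPolynomial (v.adicCompletionIntegers K))

/-- the number of the solutions modulo `v` of an equation with integral coefficients -/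
noncomputable def pts (W : WeierstrassCurve (𝓞 K)) (v : HeightOneSpectrum (𝓞 K)) : ℕ :=
  Nat.card {p : (𝓞 K ⧸ v.asIdeal) × (𝓞 K ⧸ v.asIdeal) //
    (W.map (Ideal.Quotient.mk v.asIdeal)).toAffine.Equation p.1 p.2}

/-- the kernel `k(u) = e^{iγu} / Γ(1 + u)` -/
noncomputable def ker (γ u : ℝ) : ℂ :=
  Complex.exp ((γ * u : ℝ) * Complex.I) * ((Real.Gamma (1 + u))⁻¹ : ℝ)

/-- `Λ = ∫_0^∞ (e^{-t} - k(t)) dt / t` -/
noncomputable def Lam (γ : ℝ) : ℂ := ∫ t in Ioi (0 : ℝ), (Complex.exp (-(t : ℂ)) - ker γ t) / t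

/-- `u = log q_v / log log X` -/
noncomputable def expo (X : ℝ) (v : HeightOneSpectrum (𝓞 K)) : ℝ :=
  Real.log (q v) / Real.log (Real.log X)

/-- the finite rotated product -/
noncomputable def prod (E : WeierstrassCurve K) (γ X : ℝ) : ℂ :=
  ∏ᶠ v ∈ {v : HeightOneSpectrum (𝓞 K) | q v ≤ X},
    (ratio E 1 v : ℂ) ^ ((ker γ (expo X v) + ker γ (2 * expo X v)) / 2) *
    (ratio E (-1) v : ℂ) ^ ((ker γ (2 * expo X v) - ker γ (expo X v)) / 2)

/-- the rank of the group of rational points -/
noncomputable def rank (E : WeierstrassCurve K) : ℕ :=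
  open Classical in Module.finrank ℤ E.toAffine.Point

section proof

open Pool.Agent.V7H44.BS Asymptotics
open Pool.Agent.W189.NF (aV eV)
open Pool.Agent.H921R2.TatePole (nm)

theorem ratio_eq (E : WeierstrassCurve K) {t : ℝ} (ht : t ^ 2 = 1)
    (v : HeightOneSpectrum (𝓞 K)) : ratio E t v =
    1 - t * ((aV E v : ℤ) : ℝ) / (nm v : ℝ) + ((eV E v : ℤ) : ℝ) / (nm v : ℝ) ^ 2 := by
  have h := locP_eval E v t
  rw [ht, one_mul] at h
  exact h

theorem ratio_pos (E : WeierstrassCurve K) {t : ℝ} (ht : t ^ 2 = 1)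
    (v : HeightOneSpectrum (𝓞 K)) : 0 < ratio E t v := by
  rw [ratio_eq E ht]
  exact ((nfDat E).fac_pos_hasSum v ht).1

theorem prod_eq (E : WeierstrassCurve K) (γ : ℝ) {X : ℝ} (hX : 1 < X) :
    prod E γ X = Complex.exp (WT E γ (Real.log (Real.log X))) := by
  have hl : 0 < Real.log X := Real.log_pos hX
  have hfin := (nfDat E).fin X
  unfold prod WT Sf
  rw [Real.exp_log hl, Real.exp_log (by linarith)]
  have h1 : {v : HeightOneSpectrum (𝓞 K) | q v ≤ X} =
      {v : HeightOneSpectrum (𝓞 K) | (nm v : ℝ) ≤ X} := rfl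
  rw [h1, finprod_mem_eq_finite_toFinset_prod _ hfin, finsum_mem_eq_finite_toFinset_sum _ hfin,
    Complex.exp_sum]
  refine Finset.prod_congr rfl fun v _ => ?_
  have h2 := ratio_pos E (t := 1) (by norm_num) v
  have h3 := ratio_pos E (t := -1) (by norm_num) v
  have h2c : (ratio E 1 v : ℂ) ≠ 0 := by exact_mod_cast h2.ne'
  have h3c : (ratio E (-1) v : ℂ) ≠ 0 := by exact_mod_cast h3.ne'
  rw [Complex.cpow_def_of_ne_zero h2c, Complex.cpow_def_of_ne_zero h3c, ← Complex.exp_add,
    ← Complex.ofReal_log h2.le, ← Complex.ofReal_log h3.le,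
    ratio_eq E (t := 1) (by norm_num), ratio_eq E (t := -1) (by norm_num)]
  congr 1
  unfold bt lg expo
  rw [mul_comm, mul_comm (Complex.ofReal _) (_ / 2)]
  rfl

theorem tendsto_ll : Tendsto (fun X : ℝ => Real.log (Real.log X)) atTop atTop :=
  Real.tendsto_log_atTop.comp Real.tendsto_log_atTop

theorem lam_eq (γ : ℝ) : Lam γ = Pool.Agent.W187.UR.Lam γ := rfl

/-- the three consequences of an additive law -/
theorem conseq (E : WeierstrassCurve K) {γ : ℝ} {m : ℤ} {l : ℝ} {A : ℂ}
    (hA : Complex.exp A = Complex.exp (-(m * Pool.Agent.W187.UR.Lam γ)) / l)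
    (h : (fun T : ℝ => WT E γ T - (m * Real.log T + A)) =O[atTop] (fun T : ℝ => 1 / T)) :
    (fun X : ℝ => prod E γ X / (Real.log (Real.log X) : ℂ) ^ m -
      Complex.exp (-(m * Lam γ)) / l) =O[atTop] (fun X : ℝ => 1 / Real.log (Real.log X)) := by
  have h1 := (exp_law h).comp_tendsto tendsto_ll
  refine h1.congr' ?_ (Eventually.of_forall fun X => rfl)
  filter_upwards [eventually_gt_atTop 1] with X hX
  simp only [Function.comp_apply]
  rw [prod_eq E γ hX, hA, lam_eq]

theorem rank_iff (E : WeierstrassCurve K) {γ : ℝ} {m : ℤ} {A : ℂ} (k : ℕ)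
    (h : (fun T : ℝ => WT E γ T - (m * Real.log T + A)) =O[atTop] (fun T : ℝ => 1 / T)) :
    m = (k : ℤ) ↔ Tendsto (fun X : ℝ => Real.log ‖prod E γ X‖ /
      Real.log (Real.log (Real.log X))) atTop (𝓝 (k : ℝ)) := by
  have h0 := inv_tendsto h
  have h1 : Tendsto (fun T : ℝ => (WT E γ T).re / Real.log T) atTop (𝓝 (m : ℝ)) := by
    have h2 : Tendsto (fun T : ℝ => (WT E γ T - (m * Real.log T + A)).re + A.re) atTop
        (𝓝 (0 + A.re)) := by
      refine Tendsto.add_const _ ?_
      have := (Complex.continuous_re.tendsto 0).comp h0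
      simpa [Function.comp_def] using this
    have h3 : Tendsto (fun T : ℝ => ((WT E γ T - (m * Real.log T + A)).re + A.re) / Real.log T + m)
        atTop (𝓝 (0 + m)) :=
      (h2.div_atTop Real.tendsto_log_atTop).add_const _
    rw [zero_add] at h3
    refine h3.congr' ?_
    filter_upwards [eventually_gt_atTop 1] with T hT
    have hl : Real.log T ≠ 0 := (Real.log_pos hT).ne'
    have e1 : (WT E γ T - (m * Real.log T + A)).re = (WT E γ T).re - m * Real.log T - A.re := by
      rw [Complex.sub_re, Complex.add_re]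
      have : ((m : ℂ) * (Real.log T : ℂ)).re = m * Real.log T := by
        rw [Complex.re_mul_ofReal, Complex.intCast_re]
      rw [this]
      ring
    rw [e1]
    field_simp
    ring
  have h4 : Tendsto (fun X : ℝ => Real.log ‖prod E γ X‖ /
      Real.log (Real.log (Real.log X))) atTop (𝓝 (m : ℝ)) := by
    refine (h1.comp tendsto_ll).congr' ?_
    filter_upwards [eventually_gt_atTop 1] with X hX
    simp only [Function.comp_apply]
    rw [prod_eq E γ hX, Complex.norm_exp, Real.log_exp]
  constructor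
  · intro hm
    rw [hm] at h4
    simpa using h4
  · intro h5
    have := tendsto_nhds_unique h4 h5
    exact_mod_cast this

end proof

/-- **Main theorem.** -/
theorem result (E : WeierstrassCurve K) [E.IsElliptic] (F : ℂ → ℂ)
    (hmer : ∀ x : ℝ, 1 ≤ x → x ≤ 2 → MeromorphicAt F (x : ℂ))
    (hF : ∀ s : ℂ, 2 < s.re → F s = E.LSeries s) :
    -- the factors of the product in terms of the numbers of points
    (∀ v : HeightOneSpectrum (𝓞 K), 0 < ratio E 1 v ∧ 0 < ratio E (-1) v) ∧
    (∀ W : WeierstrassCurve (𝓞 K), W.map (algebraMap (𝓞 K) K) = E →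
      ∀ v : HeightOneSpectrum (𝓞 K), W.Δ ∉ v.asIdeal →
        ratio E 1 v = (pts W v + 1) / q v ∧ ratio E (-1) v = (2 * q v + 1 - pts W v) / q v) ∧
    ∃ (r : ℤ) (B : ℝ), meromorphicOrderAt F 1 = r ∧ meromorphicTrailingCoeffAt F 1 = B ∧ B ≠ 0 ∧
      -- the rotated products
      (∀ γ : ℝ, Real.pi / 2 < γ →
        (fun X : ℝ => prod E γ X / (Real.log (Real.log X) : ℂ) ^ r -
          Complex.exp (-(r * Lam γ)) / B) =O[atTop] (fun X : ℝ => 1 / Real.log (Real.log X)) ∧
        (∀ (ρ : ℤ) (A : ℝ), A ≠ 0 → ∀ x : ℕ → ℝ, Tendsto x atTop atTop →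
          Tendsto (fun n : ℕ => prod E γ (x n) / (Real.log (Real.log (x n)) : ℂ) ^ ρ) atTop
            (𝓝 (Complex.exp (-(ρ * Lam γ)) / A)) → ρ = r ∧ A = B) ∧
        (r = (rank E : ℤ) ↔ Tendsto (fun X : ℝ => Real.log ‖prod E γ X‖ /
          Real.log (Real.log (Real.log X))) atTop (𝓝 (rank E : ℝ)))) ∧
      -- the case `γ = 0`
      ((∀ σ : ℝ, 1 < σ → meromorphicOrderAt F (σ : ℂ) = 0) →
        (fun X : ℝ => prod E 0 X / (Real.log (Real.log X) : ℂ) ^ r -
          Complex.exp (-(r * Lam 0)) / B) =O[atTop] (fun X : ℝ => 1 / Real.log (Real.log X))) ∧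
      ((∃ σ : ℝ, 1 < σ ∧ meromorphicOrderAt F (σ : ℂ) ≠ 0) → ∃ β : ℝ, 1 < β ∧
        meromorphicOrderAt F (β : ℂ) ≠ 0 ∧ ∀ y < β - 1, ∀ᶠ X : ℝ in atTop,
          Real.exp (Real.log X ^ y) ≤ |Real.log ‖prod E 0 X‖|) := by
  have hC : Pool.Agent.W189.NF.IsCont E F := ⟨hmer, hF⟩
  obtain ⟨r, B, -, hr, hB, hB0, -, -⟩ := Pool.Agent.V7H44.BS.WT_law hC
    (γ := Real.pi) (by linarith [Real.pi_pos])
  refine ⟨fun v => ⟨ratio_pos E (by norm_num) v, ratio_pos E (by norm_num) v⟩, ?_, r, B, hr, hB,
    hB0, ?_, ?_, ?_⟩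
  · intro W hW v hΔ
    obtain ⟨h1, h2⟩ := Pool.Agent.V7H44.BS.good_ae W hW v hΔ
    have hq : (0 : ℝ) < Pool.Agent.H921R2.TatePole.nm v := by
      have := Pool.Agent.V7H44.BS.qr2 v
      linarith
    have hqq : q v = Pool.Agent.H921R2.TatePole.nm v := rfl
    have hp : pts W v = Pool.Agent.V7H44.BS.pts W v := rfl
    rw [ratio_eq E (t := 1) (by norm_num), ratio_eq E (t := -1) (by norm_num), h1, h2, hqq, hp]
    constructor
    · push_cast
      field_simp
      ring
    · push_cast
      field_simp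
      ring
  · intro γ hγ
    obtain ⟨m, l, A, hm, hl, hl0, hA, h⟩ := Pool.Agent.V7H44.BS.WT_law hC hγ
    have hmr : m = r := by
      rw [hr] at hm
      exact_mod_cast hm.symm
    have hlB : l = B := by
      rw [hB] at hl
      exact_mod_cast hl.symm
    subst hmr
    subst hlB
    refine ⟨conseq E hA h, fun ρ A' hA' x hx hlim => ?_, rank_iff E (rank E) h⟩
    have h1 : Tendsto (fun T : ℝ => Complex.exp (Pool.Agent.V7H44.BS.WT E γ T) / (T : ℂ) ^ m) atTop
        (𝓝 (Complex.exp (-(m * Pool.Agent.W187.UR.Lam γ)) / l)) := by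
      rw [← hA]
      exact Pool.Agent.V7H44.BS.exp_lim h
    have h2 : Tendsto (fun n : ℕ => Complex.exp (Pool.Agent.V7H44.BS.WT E γ
        (Real.log (Real.log (x n)))) / ((Real.log (Real.log (x n)) : ℝ) : ℂ) ^ ρ) atTop
        (𝓝 (Complex.exp (-(ρ * Pool.Agent.W187.UR.Lam γ)) / A')) := by
      rw [← lam_eq]
      refine hlim.congr' ?_
      filter_upwards [hx.eventually (eventually_gt_atTop 1)] with n hn
      rw [prod_eq E γ hn]
    obtain ⟨h3, h4⟩ := Pool.Agent.N41.RM.iff_abs hl0 h1 ρ hA' (tendsto_ll.comp hx) h2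
    exact ⟨h3.symm, h4.symm⟩
  · intro hz
    obtain ⟨m, l, A, hm, hl, hl0, hA, h⟩ := Pool.Agent.V7H44.BS.WT_zero hC hz
    have hmr : m = r := by
      rw [hr] at hm
      exact_mod_cast hm.symm
    have hlB : l = B := by
      rw [hB] at hl
      exact_mod_cast hl.symm
    subst hmr
    subst hlB
    exact conseq E hA h
  · intro hz
    obtain ⟨β, h1, h2, h3⟩ := Pool.Agent.V7H44.BS.WT_growth hC hz
    refine ⟨β, h1, h2, fun y hy => ?_⟩
    filter_upwards [tendsto_ll.eventually (h3 y hy), eventually_gt_atTop 1] with X hX hX1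
    have hl : 0 < Real.log X := Real.log_pos hX1
    rw [prod_eq E 0 hX1, Complex.norm_exp, Real.log_exp, Real.rpow_def_of_pos hl,
      mul_comm (Real.log (Real.log X)) y]
    exact hX

end Pool.Agent.Results.MP_1a91b9_nt.RotatedProductsH44
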